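import Pool.Agent.Helper826.Bondy.Core
import Pool.Agent.Helper826.Bondy.Upper

/-!
For all `n ≥ 3` the excess `h n` of a pancyclic graph lies between `log₂ n + log* n - C` and
`log₂ n + log* n`.
-/

set_option autoImplicit false

open Filter

namespace Pool.Agent.Results.MP_18526b_co.LogStarExcess

/-- The graph `G` on `n` vertices contains, for every `k` with `3 ≤ k ≤ n`, a cycle of length `k`. -/
def Pancyclic {n : ℕ} (G : SimpleGraph (Fin n)) : Prop :=
  ∀ k : ℕ, 3 ≤ k → k ≤ n → ∃ (v : Fin n) (p : G.Walk v v), p.IsCycle ∧ p.length = k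

/-- `h n`: the least `t ≥ 0` such that some pancyclic graph on `n` vertices has exactly `n + t`
edges. -/
noncomputable def h (n : ℕ) : ℕ :=
  sInf {t : ℕ | ∃ G : SimpleGraph (Fin n), Pancyclic G ∧ G.edgeSet.ncard = n + t}

/-- The iterated logarithm: the least number of times `log₂` must be applied, starting from `p`, to
reach a value at most `1`. -/
noncomputable def logStar (p : ℕ) : ℕ :=
  sInf {k : ℕ | (Real.logb 2)^[k] (p : ℝ) ≤ 1}

/-- For `n ≥ 3` the set in the definition of `h n` is nonempty. -/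
theorem h_set_nonempty {n : ℕ} (hn : 3 ≤ n) :
    {t : ℕ | ∃ G : SimpleGraph (Fin n), Pancyclic G ∧ G.edgeSet.ncard = n + t}.Nonempty := by
  classical
  have h1 : (⊤ : SimpleGraph (Fin n)).edgeSet.ncard = n.choose 2 := by
    have := SimpleGraph.card_edgeFinset_top_eq_card_choose_two (V := Fin n)
    rw [Fintype.card_fin] at this
    rw [← this, ← SimpleGraph.coe_edgeFinset, Set.ncard_coe_finset]
  have h2 : n ≤ n.choose 2 := by
    rw [Nat.choose_two_right]
    rw [Nat.le_div_iff_mul_le (by norm_num)]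
    exact Nat.mul_le_mul_left n (by omega)
  refine ⟨n.choose 2 - n, ⊤, ?_, by rw [h1]; omega⟩
  intro k hk hkn
  rw [← SimpleGraph.cycleGraph_isContained_iff (by omega : 2 < k)]
  exact SimpleGraph.isContained_top_iff.mpr ⟨Fin.castLEEmb hkn⟩

theorem h_attained {n : ℕ} (hn : 3 ≤ n) :
    ∃ G : SimpleGraph (Fin n), Pancyclic G ∧ G.edgeSet.ncard = n + h n :=
  Nat.sInf_mem (h_set_nonempty hn)

/-- A pancyclic graph on `n ≥ 3` vertices has at least `n` edges. -/
theorem le_ncard {n : ℕ} (hn : 3 ≤ n) {G : SimpleGraph (Fin n)} (hG : Pancyclic G) :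
    n ≤ G.edgeSet.ncard := by
  classical
  obtain ⟨v, c, hc, hl⟩ := hG n hn le_rfl
  have h1 := List.toFinset_card_of_nodup hc.isCircuit.isTrail.edges_nodup
  have h2 : ((c.edges.toFinset : Finset (Sym2 (Fin n))) : Set (Sym2 (Fin n))) ⊆ G.edgeSet := by
    intro e he
    exact c.edges_subset_edgeSet (by simpa using he)
  have h3 := Set.ncard_le_ncard h2 (Set.toFinite _)
  rw [Set.ncard_coe_finset, h1, SimpleGraph.Walk.length_edges, hl] at h3
  exact h3

/-- The iterated logarithm of `p` is attained: some iterate of `log₂` at `p` is at most `1`. -/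
theorem logStar_set_nonempty (p : ℕ) :
    {k : ℕ | (Real.logb 2)^[k] (p : ℝ) ≤ 1}.Nonempty := by
  have hstep : ∀ x : ℝ, 1 < x → Real.logb 2 x ≤ max 1 (x - 1) := by
    intro x hx
    by_cases h : x ≤ 2
    · refine le_max_of_le_left ?_
      rw [Real.logb_le_iff_le_rpow (by norm_num) (by linarith)]
      simpa using h
    · push Not at h
      refine le_max_of_le_right ?_
      have h1 : Real.log (x / 2) ≤ x / 2 - 1 := Real.log_le_sub_one_of_pos (by linarith)
      have h2 : Real.log x = Real.log 2 + Real.log (x / 2) := by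
        rw [← Real.log_mul (by norm_num) (by positivity)]; congr 1; field_simp
      have h3 : (0.69 : ℝ) < Real.log 2 := by
        have := Real.log_two_gt_d9; linarith
      rw [← Real.log_div_log, h2, div_le_iff₀ (by linarith)]
      nlinarith
  have key : ∀ (j : ℕ) (x : ℝ), x ≤ j + 1 → ∃ k : ℕ, (Real.logb 2)^[k] x ≤ 1 := by
    intro j
    induction j with
    | zero =>
      intro x hx
      exact ⟨0, by simpa using hx⟩
    | succ j ih =>
      intro x hx
      by_cases h1 : x ≤ 1
      · exact ⟨0, by simpa using h1⟩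
      · push Not at h1
        have h2 := hstep x h1
        have h3 : Real.logb 2 x ≤ j + 1 := by
          refine h2.trans (max_le (by linarith [Nat.cast_nonneg (α := ℝ) j]) ?_)
          push_cast at hx
          linarith
        obtain ⟨k, hk⟩ := ih _ h3
        exact ⟨k + 1, by rwa [Function.iterate_succ_apply]⟩
  exact key p p (by linarith)

/-- A number whose `(n+1)`-st iterated logarithm is at most `1` is at most the tower of height
`n + 1` of twos. -/
theorem le_tower : ∀ (n : ℕ) (x : ℝ), (∀ k ≤ n, 1 < (Real.logb 2)^[k] x) →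
    (Real.logb 2)^[n + 1] x ≤ 1 → x ≤ Pool.Agent.Helper826.Bondy.Upper.T n := by
  intro n
  induction n with
  | zero =>
    intro x h1 h2
    have hx : 1 < x := by simpa using h1 0 le_rfl
    simp only [zero_add, Function.iterate_one] at h2
    rw [Real.logb_le_iff_le_rpow (by norm_num) (by linarith)] at h2
    simpa [Pool.Agent.Helper826.Bondy.Upper.T] using h2
  | succ n ih =>
    intro x h1 h2
    have hx : 1 < x := by simpa using h1 0 (Nat.zero_le _)
    have h3 := ih (Real.logb 2 x) (fun k hk => by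
      have := h1 (k + 1) (by omega)
      rwa [Function.iterate_succ_apply] at this) (by rwa [Function.iterate_succ_apply] at h2)
    rw [Real.logb_le_iff_le_rpow (by norm_num) (by linarith), Real.rpow_natCast] at h3
    simpa [Pool.Agent.Helper826.Bondy.Upper.T] using h3

theorem le_tower_logStar (p : ℕ) (hp : 2 ≤ p) :
    1 ≤ logStar p ∧ p ≤ Pool.Agent.Helper826.Bondy.Upper.T (logStar p - 1) := by
  have hmem := Nat.sInf_mem (logStar_set_nonempty p)
  change (Real.logb 2)^[logStar p] (p : ℝ) ≤ 1 at hmem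
  have hp' : (2 : ℝ) ≤ p := by exact_mod_cast hp
  have h1 : 1 ≤ logStar p := by
    by_contra h
    have h0 : logStar p = 0 := by omega
    rw [h0] at hmem
    simp only [Function.iterate_zero, id_eq] at hmem
    linarith
  refine ⟨h1, ?_⟩
  obtain ⟨n, hn⟩ : ∃ n, logStar p = n + 1 := ⟨logStar p - 1, by omega⟩
  have h2 := le_tower n p (fun k hk => by
    by_contra hcon
    push Not at hcon
    have : logStar p ≤ k := Nat.sInf_le hcon
    omega) (by rw [← hn]; exact hmem)
  rw [hn, Nat.add_sub_cancel]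
  exact_mod_cast h2

theorem upper (n : ℕ) (hn : 3 ≤ n) : (h n : ℝ) ≤ Real.logb 2 n + logStar n := by
  obtain ⟨h1, h2⟩ := le_tower_logStar n (by omega)
  obtain ⟨G, hG, k, hk, hE⟩ := Pool.Agent.Helper826.Bondy.Upper.main n (logStar n - 1) hn h2
  have h0 : n ≤ G.edgeSet.ncard := le_ncard hn hG
  have h3 : h n ≤ G.edgeSet.ncard - n := Nat.sInf_le ⟨G, hG, by omega⟩
  have h4 : h n ≤ k + logStar n := by omega
  have h5 : (k : ℝ) ≤ Real.logb 2 n := by
    rw [Real.le_logb_iff_rpow_le (by norm_num) (by positivity), Real.rpow_natCast]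
    exact_mod_cast hk
  have h6 : (h n : ℝ) ≤ (k : ℝ) + logStar n := by exact_mod_cast h4
  linarith

theorem two_sided : ∃ C : ℝ, ∀ n : ℕ, 3 ≤ n →
    Real.logb 2 n + logStar n - C ≤ h n ∧ (h n : ℝ) ≤ Real.logb 2 n + logStar n := by
  obtain ⟨C, hC⟩ := Jia.bondy_core
  refine ⟨max C (Real.logb 2 ((3 : ℕ) : ℝ) + logStar 3 + 3), ?_⟩
  intro n hn
  refine ⟨?_, upper n hn⟩
  by_cases h4 : 4 ≤ n
  · obtain ⟨G, hA, hG⟩ := h_attained hn
    have h1 := hC n h4 n G hA
    have h2 := le_max_left C (Real.logb 2 ((3 : ℕ) : ℝ) + logStar 3 + 3)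
    rw [hG] at h1
    push_cast at h1
    unfold logStar at h2 ⊢
    linarith
  · have h3 : n = 3 := by omega
    subst h3
    have h2 := le_max_right C (Real.logb 2 ((3 : ℕ) : ℝ) + logStar 3 + 3)
    have h5 : (0 : ℝ) ≤ (h 3 : ℝ) := Nat.cast_nonneg _
    linarith

/-- `log₂ n + log* n - C ≤ h n ≤ log₂ n + log* n` for all `n ≥ 3`. -/
theorem result : ∃ C : ℝ, ∀ n : ℕ, 3 ≤ n →
    Real.logb 2 n + logStar n - C ≤ h n ∧ (h n : ℝ) ≤ Real.logb 2 n + logStar n :=
  two_sided

end Pool.Agent.Results.MP_18526b_co.LogStarExcess
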